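import Pool.Agent.K7.H87.EX.Stm2

/-! Project EX2 (MP_611b97_al), job SOLV. -/

set_option autoImplicit false

namespace Pool.Agent.K7.H6.EXSOLV

open Pool.Agent.K7.H87.EX
open scoped commutatorElement

section
variable {K : Type} [Group K] {N : Subgroup K} (hN : N.Normal)

theorem cj_one (a : N) : cj N hN 1 a = a := by
  apply Subtype.ext; simp [cj]

theorem cj_mul (g h : K) (a : N) : cj N hN (g * h) a = cj N hN g (cj N hN h a) := by
  apply Subtype.ext; simp only [cj]; group

theorem cj_hom (g : K) (a b : N) : cj N hN g (a * b) = cj N hN g a * cj N hN g b := by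
  apply Subtype.ext; simp only [cj, Subgroup.coe_mul]; group

theorem cj_inv_cancel (g : K) (a : N) : cj N hN g (cj N hN g⁻¹ a) = a := by
  rw [← cj_mul, mul_inv_cancel, cj_one]

variable [LinearOrder N]

/-- the elements which move everything by something of level at most `m` -/
def T (h1 : lev (1 : N) = 0) (hmul : ∀ a b : N, lev (a * b) ≤ max (lev a) (lev b))
    (hinv : ∀ a : N, lev a⁻¹ = lev a) (m : ℕ) : Subgroup K where
  carrier := {g | ∀ a : N, lev (a⁻¹ * cj N hN g a) ≤ m}
  one_mem' := by
    intro a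
    rw [cj_one, inv_mul_cancel, h1]
    exact Nat.zero_le _
  mul_mem' := by
    intro g h hg hh a
    have e : a⁻¹ * cj N hN (g * h) a =
        (a⁻¹ * cj N hN h a) * ((cj N hN h a)⁻¹ * cj N hN g (cj N hN h a)) := by
      rw [cj_mul]; group
    rw [e]
    exact (hmul _ _).trans (max_le (hh a) (hg _))
  inv_mem' := by
    intro g hg a
    have e : a⁻¹ * cj N hN g⁻¹ a = ((cj N hN g⁻¹ a)⁻¹ * cj N hN g (cj N hN g⁻¹ a))⁻¹ := by
      rw [cj_inv_cancel]; group
    rw [e, hinv]
    exact hg _

end

theorem t (hLev : StLev) (hDrop : StDrop) (hCom : StCom) : StSolv := by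
  intro K _ N hN _ hl hr hcj hfin hcen
  obtain ⟨h0, hmul, hinv, -, M, hM⟩ := hLev N hl hr hfin
  have hone : lev (1 : N) = 0 := (h0 1).2 rfl
  have hdrop : ∀ g ∈ commutator K, ∀ a : N, ∀ j : ℕ, lev a ≤ j →
      lev (a⁻¹ * cj N hN g a) ≤ j - 1 := by
    intro g hg a j ha
    by_cases ha1 : a = 1
    · subst ha1
      have e : (1 : N)⁻¹ * cj N hN g 1 = 1 := by
        apply Subtype.ext; simp [cj]
      rw [e, hone]
      exact Nat.zero_le _
    · have := hDrop K N hN hl hr hcj hfin g hg a ha1
      omega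
  have hcom : ∀ u v : N, ∀ j : ℕ, lev u ≤ j → lev v ≤ j → lev (u⁻¹ * v⁻¹ * u * v) ≤ j - 1 := by
    intro u v j hu hv
    by_cases hu1 : u = 1
    · subst hu1
      have e : (1 : N)⁻¹ * v⁻¹ * 1 * v = 1 := by group
      rw [e, hone]; exact Nat.zero_le _
    by_cases hv1 : v = 1
    · subst hv1
      have e : u⁻¹ * (1 : N)⁻¹ * u * 1 = 1 := by group
      rw [e, hone]; exact Nat.zero_le _
    rcases le_total (lev v) (lev u) with h | h
    · have := hCom N hl hr hfin u v hu1 h
      omega
    · have h2 := hCom N hl hr hfin v u hv1 h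
      have e : u⁻¹ * v⁻¹ * u * v = (v⁻¹ * u⁻¹ * v * u)⁻¹ := by group
      rw [e, hinv]
      omega
  have key : ∀ i : ℕ, derivedSeries K (i + 1) ≤ T hN hone hmul hinv (M - (i + 1)) := by
    intro i
    induction i with
    | zero =>
      intro g hg a
      have hg' : g ∈ commutator K := by
        have : derivedSeries K (0 + 1) = commutator K := by
          rw [zero_add, derivedSeries_one]
        rwa [this] at hg
      exact hdrop g hg' a M (hM a)
    | succ i ih =>
      have hle : derivedSeries K (i + 1) ≤ commutator K := by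
        have : derivedSeries K (i + 1) ≤ derivedSeries K 1 := derivedSeries_antitone K (by omega)
        rwa [derivedSeries_one] at this
      rw [derivedSeries_succ, Subgroup.commutator_le]
      intro g hg g' hg' a
      have hTg := ih hg
      have hTg' := ih hg'
      set b : N := cj N hN (g' * g)⁻¹ a with hb
      have hab : a = cj N hN (g' * g) b := by rw [hb, cj_inv_cancel]
      have hcomm : cj N hN ⁅g, g'⁆ a = cj N hN (g * g') b := by
        rw [hb, ← cj_mul]
        congr 1
        rw [commutatorElement_def]; group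
      set u : N := b⁻¹ * cj N hN g b with hu
      set v : N := b⁻¹ * cj N hN g' b with hv
      have hgu : cj N hN g b = b * u := by rw [hu]; group
      have hgv : cj N hN g' b = b * v := by rw [hv]; group
      have hlu : lev u ≤ M - (i + 1) := hTg b
      have hlv : lev v ≤ M - (i + 1) := hTg' b
      have he := hdrop g' (hle hg') u _ hlu
      have hf := hdrop g (hle hg) v _ hlv
      have hc := hcom u v _ hlu hlv
      have e1 : cj N hN (g' * g) b = b * v * cj N hN g' u := by
        rw [cj_mul, hgu, cj_hom, hgv]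
      have e2 : cj N hN (g * g') b = b * u * cj N hN g v := by
        rw [cj_mul, hgv, cj_hom, hgu]
      have e : a⁻¹ * cj N hN ⁅g, g'⁆ a =
          (u⁻¹ * cj N hN g' u)⁻¹ * ((u⁻¹ * v⁻¹ * u * v) * (v⁻¹ * cj N hN g v)) := by
        rw [hcomm, e2, hab, e1]; group
      have hsub : M - (i + 1) - 1 = M - (i + 1 + 1) := by omega
      rw [hsub] at he hf hc
      show lev (a⁻¹ * cj N hN ⁅g, g'⁆ a) ≤ M - (i + 1 + 1)
      rw [e]
      refine (hmul _ _).trans (max_le ?_ ((hmul _ _).trans (max_le hc hf)))
      rw [hinv]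
      exact he
  have hcentre : derivedSeries K (M + 1) ≤ Subgroup.center K := by
    intro g hg
    refine hcen g fun a ha => ?_
    have h1 := key M hg ⟨a, ha⟩
    have h2 : lev ((⟨a, ha⟩ : N)⁻¹ * cj N hN g ⟨a, ha⟩) = 0 := by omega
    have h3 := (h0 _).1 h2
    have h4 : cj N hN g ⟨a, ha⟩ = ⟨a, ha⟩ := (inv_mul_eq_one.1 h3).symm
    have h5 : g * a * g⁻¹ = a := congrArg Subtype.val h4
    calc a * g = (g * a * g⁻¹) * g := by rw [h5]
      _ = g * a := by group
  refine ⟨M + 2, ?_⟩
  rw [show M + 2 = (M + 1) + 1 from rfl, derivedSeries_succ, eq_bot_iff, Subgroup.commutator_le]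
  intro g hg h _
  rw [Subgroup.mem_bot, commutatorElement_eq_one_iff_mul_comm]
  exact (Subgroup.mem_center_iff.1 (hcentre hg) h).symm

end Pool.Agent.K7.H6.EXSOLV
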